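import Mathlib
import Pool.Agent.Q236.CR.Stm
import Pool.Agent.H398R2.BA1

/-! Project CR, job DV: moments of the number of ordered factorisations. -/

set_option autoImplicit false

namespace Pool.Agent.Q229.CR

open Finset
open Pool.Agent.Q236.CR

theorem tr_le (r X n : ℕ) (hn : 1 ≤ n) : tr r X n ≤ n.divisors.card ^ r := by
  unfold tr
  calc _ ≤ (Fintype.piFinset (fun _ : Fin r => n.divisors)).card := by
        apply card_le_card
        intro v hv
        rw [mem_filter, Fintype.mem_piFinset] at hv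
        rw [Fintype.mem_piFinset]
        intro i
        rw [Nat.mem_divisors]
        refine ⟨?_, by omega⟩
        rw [← hv.2]
        exact dvd_prod_of_mem _ (mem_univ i)
    _ = _ := by rw [Fintype.card_piFinset]; simp

theorem dv : S_DV := by
  intro r
  refine ⟨2 ^ (4 * r), fun X Y hY => ?_⟩
  calc _ ≤ ∑ n ∈ Icc 1 Y, (Y : ℝ) * ((n.divisors.card : ℝ) ^ (4 * r) / n) := by
        apply sum_le_sum
        intro n hn
        rw [mem_Icc] at hn
        have hn0 : (0 : ℝ) < n := by exact_mod_cast hn.1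
        have h1 : (tr r X n : ℝ) ≤ (n.divisors.card : ℝ) ^ r := by exact_mod_cast tr_le r X n hn.1
        have h2 : (tr r X n : ℝ) ^ 4 ≤ (n.divisors.card : ℝ) ^ (4 * r) := by
          calc _ ≤ ((n.divisors.card : ℝ) ^ r) ^ 4 := pow_le_pow_left₀ (by positivity) h1 4
            _ = _ := by rw [← pow_mul, mul_comm]
        have h3 : (1 : ℝ) ≤ (Y : ℝ) / n := by
          rw [le_div_iff₀ hn0, one_mul]
          exact_mod_cast hn.2
        calc _ ≤ 1 * (n.divisors.card : ℝ) ^ (4 * r) := by rw [one_mul]; exact h2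
          _ ≤ (Y : ℝ) / n * (n.divisors.card : ℝ) ^ (4 * r) :=
            mul_le_mul_of_nonneg_right h3 (by positivity)
          _ = _ := by ring
    _ = (Y : ℝ) * ∑ n ∈ Icc 1 Y, ((n.divisors.card : ℝ) ^ (4 * r) / n) := (mul_sum ..).symm
    _ ≤ _ := mul_le_mul_of_nonneg_left (Pool.Agent.H398R2.BV.sum_card_pow_div _ _) (by positivity)

end Pool.Agent.Q229.CR
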