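import Mathlib
import Pool.Agent.Q236.CR.Stm

/-! Project CR, job FD: character sums with `n^{-iτ}`, trivial approximation. -/

set_option autoImplicit false

namespace Pool.Agent.Q229.CR

open Finset
open Pool.Agent.Q236.CR

/-- `y^{-iτ}` for real `y` -/
noncomputable def ny (τ y : ℝ) : ℂ := (y : ℂ) ^ (-(τ : ℂ) * Complex.I)

theorem ny_nat (τ : ℝ) (n : ℕ) : ny τ n = nt τ n := by
  unfold ny nt; simp

theorem ny_exp (τ y : ℝ) (hy : 0 < y) :
    ny τ y = Complex.exp (Complex.I * ((-(τ * Real.log y) : ℝ) : ℂ)) := by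
  unfold ny
  rw [Complex.cpow_def_of_ne_zero (by exact_mod_cast hy.ne'), ← Complex.ofReal_log hy.le]
  congr 1
  push_cast
  ring

theorem norm_ny (τ y : ℝ) (hy : 0 < y) : ‖ny τ y‖ = 1 := by
  rw [ny_exp τ y hy, mul_comm]
  exact Complex.norm_exp_ofReal_mul_I _

theorem norm_nt' (τ : ℝ) (n : ℕ) (hn : 1 ≤ n) : ‖nt τ n‖ = 1 := by
  rw [← ny_nat]; exact norm_ny τ n (by exact_mod_cast hn)

theorem ny_sub (τ x y : ℝ) (hx : 0 < x) (hxy : x ≤ y) :
    ‖ny τ y - ny τ x‖ ≤ |τ| * ((y - x) / x) := by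
  have hy : 0 < y := hx.trans_le hxy
  have h1 : ny τ y - ny τ x = ny τ x *
      (Complex.exp (Complex.I * ((-(τ * (Real.log y - Real.log x)) : ℝ) : ℂ)) - 1) := by
    rw [ny_exp τ y hy, ny_exp τ x hx, mul_sub, ← Complex.exp_add, mul_one]
    congr 2
    push_cast
    ring
  rw [h1, norm_mul, norm_ny τ x hx, one_mul]
  refine (Real.norm_exp_I_mul_ofReal_sub_one_le).trans ?_
  rw [Real.norm_eq_abs, abs_neg, abs_mul]
  apply mul_le_mul_of_nonneg_left _ (abs_nonneg _)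
  rw [← Real.log_div hy.ne' hx.ne']
  have h2 : 1 ≤ y / x := by rw [le_div_iff₀ hx]; linarith
  rw [abs_of_nonneg (Real.log_nonneg h2)]
  calc _ ≤ y / x - 1 := Real.log_le_sub_one_of_pos (by positivity)
    _ = _ := by field_simp

/-- the primitive of `y^{-iτ}` -/
noncomputable def Fy (τ y : ℝ) : ℂ :=
  (y : ℂ) ^ (-(τ : ℂ) * Complex.I + 1) / (-(τ : ℂ) * Complex.I + 1)

theorem re_exp (τ : ℝ) : (-(τ : ℂ) * Complex.I + 1).re = 1 := by simp

theorem im_exp (τ : ℝ) : (-(τ : ℂ) * Complex.I + 1).im = -τ := by simp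

theorem Fy_bound (τ y : ℝ) (hy : 0 < y) (hτ : 1 ≤ |τ|) : ‖Fy τ y‖ ≤ y / |τ| := by
  unfold Fy
  rw [norm_div, Complex.norm_cpow_eq_rpow_re_of_pos hy, re_exp, Real.rpow_one]
  apply div_le_div_of_nonneg_left hy.le (by linarith)
  calc |τ| = |(-(τ : ℂ) * Complex.I + 1).im| := by rw [im_exp, abs_neg]
    _ ≤ _ := Complex.abs_im_le_norm _

theorem Fy_step (τ : ℝ) (n : ℕ) (hn : 1 ≤ n) :
    ‖Fy τ (n + 1) - Fy τ n - nt τ n‖ ≤ |τ| / n := by
  have hn0 : (0 : ℝ) < n := by exact_mod_cast hn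
  have hd : ∀ x ∈ Set.Icc (n : ℝ) (n + 1), HasDerivWithinAt (fun y => Fy τ y - y * ny τ n)
      (ny τ x - ny τ n) (Set.Icc (n : ℝ) (n + 1)) x := by
    intro x hx
    have hx0 : x ≠ 0 := (hn0.trans_le hx.1).ne'
    apply HasDerivAt.hasDerivWithinAt
    have h1 := hasDerivAt_ofReal_cpow_const' hx0 (r := -(τ : ℂ) * Complex.I) (by
      intro h
      have := congrArg Complex.re h
      simp at this)
    have h2 : HasDerivAt (fun y : ℝ => (y : ℂ) * ny τ n) (1 * ny τ n) x :=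
      (Complex.ofRealCLM.hasDerivAt (x := x)).mul_const (ny τ n)
    rw [one_mul] at h2
    exact h1.sub h2
  have hb : ∀ x ∈ Set.Ico (n : ℝ) (n + 1), ‖ny τ x - ny τ n‖ ≤ |τ| / n := by
    intro x hx
    refine (ny_sub τ n x hn0 hx.1).trans ?_
    rw [div_eq_mul_one_div |τ|]
    apply mul_le_mul_of_nonneg_left _ (abs_nonneg _)
    apply div_le_div_of_nonneg_right _ hn0.le
    linarith [hx.2]
  have h3 := norm_image_sub_le_of_norm_deriv_le_segment' hd hb (n + 1)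
    (Set.right_mem_Icc.2 (by linarith))
  have e1 : (Fy τ (n + 1) - ((n + 1 : ℝ) : ℂ) * ny τ n) - (Fy τ n - ((n : ℝ) : ℂ) * ny τ n) =
      Fy τ (n + 1) - Fy τ n - nt τ n := by
    rw [ny_nat]; push_cast; ring
  rw [e1] at h3
  linarith

/-- sum of `n^{-iτ}` -/
theorem sum_nt (τ : ℝ) (M u v : ℕ) (hM : 1 ≤ M) (hu : M ≤ u + 1) (huv : u ≤ v) :
    ‖∑ n ∈ Ioc u v, nt τ n - (Fy τ (v + 1) - Fy τ (u + 1))‖ ≤ |τ| / M * (v - u) := by
  induction v, huv using Nat.le_induction with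
  | base => simp
  | succ v huv ih =>
    rw [sum_Ioc_succ_top (by omega)]
    have h1 := Fy_step τ (v + 1) (by omega)
    have hM0 : (0 : ℝ) < M := by exact_mod_cast hM
    have h2 : |τ| / ((v + 1 : ℕ) : ℝ) ≤ |τ| / M := by
      apply div_le_div_of_nonneg_left (abs_nonneg _) hM0
      exact_mod_cast (show M ≤ v + 1 by omega)
    have e1 : ∑ n ∈ Ioc u v, nt τ n + nt τ (v + 1) - (Fy τ (((v + 1 : ℕ) : ℝ) + 1) - Fy τ (u + 1)) =
        (∑ n ∈ Ioc u v, nt τ n - (Fy τ (v + 1) - Fy τ (u + 1))) -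
          (Fy τ (((v + 1 : ℕ) : ℝ) + 1) - Fy τ ((v + 1 : ℕ) : ℝ) - nt τ (v + 1)) := by
      push_cast; ring
    rw [e1]
    refine (norm_sub_le _ _).trans ?_
    calc _ ≤ |τ| / M * (v - u) + |τ| / M := add_le_add ih (h1.trans h2)
      _ = _ := by push_cast; ring

/-- summation by parts -/
theorem abel_id (a f : ℕ → ℂ) (u v : ℕ) (huv : u ≤ v) :
    ∑ n ∈ Ioc u v, a n * f n = (∑ n ∈ Ioc u v, a n) * f (v + 1) -
      ∑ n ∈ Ioc u v, (∑ m ∈ Ioc u n, a m) * (f (n + 1) - f n) := by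
  induction v, huv using Nat.le_induction with
  | base => simp
  | succ v huv ih =>
    rw [sum_Ioc_succ_top (by omega), sum_Ioc_succ_top (by omega : u ≤ v) (f := fun n => a n),
      sum_Ioc_succ_top (by omega : u ≤ v) (f := fun n => (∑ m ∈ Ioc u n, a m) * (f (n + 1) - f n)),
      ih, sum_Ioc_succ_top (by omega : u ≤ v) (f := fun n => a n)]
    ring

theorem abel_bd (a f : ℕ → ℂ) (u v : ℕ) (huv : u ≤ v) (B : ℝ)
    (hB : ∀ w, u ≤ w → w ≤ v → ‖∑ n ∈ Ioc u w, a n‖ ≤ B) :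
    ‖∑ n ∈ Ioc u v, a n * f n‖ ≤ B * (‖f (v + 1)‖ + ∑ n ∈ Ioc u v, ‖f (n + 1) - f n‖) := by
  rw [abel_id a f u v huv]
  refine (norm_sub_le _ _).trans ?_
  rw [mul_add]
  apply add_le_add
  · rw [norm_mul]
    exact mul_le_mul_of_nonneg_right (hB v huv le_rfl) (norm_nonneg _)
  · refine (norm_sum_le _ _).trans ?_
    rw [mul_sum]
    apply sum_le_sum
    intro n hn
    rw [mem_Ioc] at hn
    rw [norm_mul]
    exact mul_le_mul_of_nonneg_right (hB n hn.1.le hn.2) (norm_nonneg _)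

/-- prefix sums of a bounded periodic function -/
theorem per_sum (q : ℕ) (hq : 1 ≤ q) (c : ℕ → ℂ) (hc : ∀ n, ‖c n‖ ≤ 1) (hp : ∀ n, c (n + q) = c n)
    (n : ℕ) : ‖∑ m ∈ range n, c m - (∑ m ∈ range q, c m) / q * n‖ ≤ 2 * q := by
  have hq0 : (q : ℂ) ≠ 0 := by exact_mod_cast (by omega : q ≠ 0)
  have hqr : (0 : ℝ) < q := by exact_mod_cast hq
  have hS : ‖(∑ m ∈ range q, c m) / (q : ℂ)‖ ≤ 1 := by
    rw [norm_div, Complex.norm_natCast, div_le_one hqr]
    calc _ ≤ ∑ m ∈ range q, ‖c m‖ := norm_sum_le _ _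
      _ ≤ ∑ m ∈ range q, (1 : ℝ) := sum_le_sum fun _ _ => hc _
      _ = q := by simp
  have hk : ∀ k m, c (q * k + m) = c m := by
    intro k
    induction k with
    | zero => intro m; rw [mul_zero, zero_add]
    | succ k ih =>
      intro m
      have : q * (k + 1) + m = (q * k + m) + q := by ring
      rw [this, hp, ih]
  have h1 : ∀ k, ∑ m ∈ range (q * k), c m = (∑ m ∈ range q, c m) * k := by
    intro k
    induction k with
    | zero => simp
    | succ k ih =>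
      rw [mul_add, mul_one, sum_range_add, ih, sum_congr rfl (fun m _ => hk k m)]
      push_cast; ring
  have h2 : n = q * (n / q) + n % q := (Nat.div_add_mod n q).symm
  have h3 : ∑ m ∈ range n, c m = (∑ m ∈ range q, c m) * (n / q : ℕ) + ∑ m ∈ range (n % q), c m := by
    conv_lhs => rw [h2]
    rw [sum_range_add, h1, sum_congr rfl (fun m _ => hk (n / q) m)]
  have h4 : ∑ m ∈ range n, c m - (∑ m ∈ range q, c m) / q * n =
      ∑ m ∈ range (n % q), c m - (∑ m ∈ range q, c m) / q * (n % q : ℕ) := by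
    rw [h3]
    have h5 : (n : ℂ) = (q : ℂ) * ((n / q : ℕ) : ℂ) + ((n % q : ℕ) : ℂ) := by
      exact_mod_cast h2
    rw [h5]
    field_simp
    ring
  rw [h4]
  have h6 : ((n % q : ℕ) : ℝ) ≤ q := by exact_mod_cast (Nat.mod_lt n hq).le
  calc _ ≤ ‖∑ m ∈ range (n % q), c m‖ + ‖(∑ m ∈ range q, c m) / q * (n % q : ℕ)‖ := norm_sub_le _ _
    _ ≤ ∑ m ∈ range (n % q), ‖c m‖ + 1 * ((n % q : ℕ) : ℝ) := by
        apply add_le_add (norm_sum_le _ _)
        rw [norm_mul, Complex.norm_natCast]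
        exact mul_le_mul_of_nonneg_right hS (by positivity)
    _ ≤ ((n % q : ℕ) : ℝ) + 1 * ((n % q : ℕ) : ℝ) := by
        apply add_le_add _ le_rfl
        calc _ ≤ ∑ m ∈ range (n % q), (1 : ℝ) := sum_le_sum fun _ _ => hc _
          _ = _ := by simp
    _ ≤ 2 * q := by linarith

theorem per_Ioc (q : ℕ) (hq : 1 ≤ q) (c : ℕ → ℂ) (hc : ∀ n, ‖c n‖ ≤ 1) (hp : ∀ n, c (n + q) = c n)
    (u w : ℕ) (huw : u ≤ w) :
    ‖∑ n ∈ Ioc u w, (c n - (∑ m ∈ range q, c m) / q)‖ ≤ 4 * q := by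
  set s := (∑ m ∈ range q, c m) / (q : ℂ) with hs
  have h1 : ∑ n ∈ Ioc u w, (c n - s) = (∑ m ∈ range (w + 1), c m - s * ((w + 1 : ℕ) : ℂ)) -
      (∑ m ∈ range (u + 1), c m - s * ((u + 1 : ℕ) : ℂ)) := by
    induction w, huw using Nat.le_induction with
    | base => simp
    | succ w huw ih =>
      rw [sum_Ioc_succ_top (by omega), ih, sum_range_succ _ (w + 1)]
      push_cast; ring
  rw [h1]
  refine (norm_sub_le _ _).trans ?_
  linarith [per_sum q hq c hc hp (w + 1), per_sum q hq c hc hp (u + 1)]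

/-- the first bound, for periodic functions -/
theorem fd1 (q : ℕ) (hq : 1 ≤ q) (c : ℕ → ℂ) (hc : ∀ n, ‖c n‖ ≤ 1) (hp : ∀ n, c (n + q) = c n)
    (M u v : ℕ) (τ : ℝ) (hM : 1 ≤ M) (hu : M ≤ u + 1) (hv : v ≤ 2 * M) (hτ : 1 ≤ |τ|) :
    ‖∑ n ∈ Ioc u v, c n * nt τ n‖ ≤ 14 * (M / |τ| + q * |τ|) := by
  have hM0 : (0 : ℝ) < M := by exact_mod_cast hM
  have hq1 : (1 : ℝ) ≤ q := by exact_mod_cast hq
  have hτ0 : 0 < |τ| := by linarith
  have hpos : 0 ≤ 14 * (M / |τ| + q * |τ|) := by positivity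
  rcases Nat.lt_or_ge v u with h | huv
  · rw [Ioc_eq_empty (by omega), sum_empty, norm_zero]; exact hpos
  set s := (∑ m ∈ range q, c m) / (q : ℂ) with hs
  have hS : ‖s‖ ≤ 1 := by
    rw [hs, norm_div, Complex.norm_natCast, div_le_one (by linarith)]
    calc _ ≤ ∑ m ∈ range q, ‖c m‖ := norm_sum_le _ _
      _ ≤ ∑ m ∈ range q, (1 : ℝ) := sum_le_sum fun _ _ => hc _
      _ = q := by simp
  have hvu : (v : ℝ) - u ≤ 2 * M := by
    have : v ≤ 2 * M + u := by omega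
    have : (v : ℝ) ≤ 2 * M + u := by exact_mod_cast this
    linarith
  have hvu0 : (0 : ℝ) ≤ (v : ℝ) - u := by
    have : (u : ℝ) ≤ v := by exact_mod_cast huv
    linarith
  have h1 : ∑ n ∈ Ioc u v, c n * nt τ n = s * ∑ n ∈ Ioc u v, nt τ n +
      ∑ n ∈ Ioc u v, (c n - s) * nt τ n := by
    rw [mul_sum, ← sum_add_distrib]
    exact sum_congr rfl fun n _ => by ring
  have h2 : ‖∑ n ∈ Ioc u v, nt τ n‖ ≤ 6 * (M / |τ|) + 2 * |τ| := by
    have a1 := sum_nt τ M u v hM hu huv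
    have a2 : ‖Fy τ (v + 1)‖ ≤ 3 * (M / |τ|) := by
      refine (Fy_bound τ _ (by positivity) hτ).trans ?_
      rw [← mul_div_assoc]
      apply div_le_div_of_nonneg_right _ hτ0.le
      exact_mod_cast (show v + 1 ≤ 3 * M by omega)
    have a3 : ‖Fy τ (u + 1)‖ ≤ 3 * (M / |τ|) := by
      refine (Fy_bound τ _ (by positivity) hτ).trans ?_
      rw [← mul_div_assoc]
      apply div_le_div_of_nonneg_right _ hτ0.le
      exact_mod_cast (show u + 1 ≤ 3 * M by omega)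
    have a4 : |τ| / M * (v - u) ≤ 2 * |τ| := by
      calc _ ≤ |τ| / M * (2 * M) := mul_le_mul_of_nonneg_left hvu (by positivity)
        _ = _ := by field_simp
    have a5 : ∑ n ∈ Ioc u v, nt τ n = (∑ n ∈ Ioc u v, nt τ n - (Fy τ (v + 1) - Fy τ (u + 1))) +
        (Fy τ (v + 1) - Fy τ (u + 1)) := by ring
    rw [a5]
    refine (norm_add_le _ _).trans ?_
    have a6 := norm_sub_le (Fy τ (v + 1)) (Fy τ (u + 1))
    linarith
  have h3 : ‖∑ n ∈ Ioc u v, (c n - s) * nt τ n‖ ≤ 12 * (q * |τ|) := by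
    refine (abel_bd (fun n => c n - s) (nt τ) u v huv (4 * q)
      (fun w hw _ => per_Ioc q hq c hc hp u w hw)).trans ?_
    have b1 : ∑ n ∈ Ioc u v, ‖nt τ (n + 1) - nt τ n‖ ≤ 2 * |τ| := by
      calc _ ≤ ∑ n ∈ Ioc u v, |τ| / M := by
            apply sum_le_sum
            intro n hn
            rw [mem_Ioc] at hn
            have hn0 : (0 : ℝ) < n := by exact_mod_cast (by omega : 0 < n)
            rw [← ny_nat, ← ny_nat]
            refine (ny_sub τ n ((n + 1 : ℕ) : ℝ) hn0 (by push_cast; linarith)).trans ?_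
            rw [div_eq_mul_one_div |τ|]
            apply mul_le_mul_of_nonneg_left _ (abs_nonneg _)
            have : ((n + 1 : ℕ) : ℝ) - n = 1 := by push_cast; ring
            rw [this]
            apply div_le_div_of_nonneg_left zero_le_one hM0
            exact_mod_cast (show M ≤ n by omega)
        _ = (v - u) * (|τ| / M) := by
            rw [sum_const, Nat.card_Ioc, nsmul_eq_mul, Nat.cast_sub huv]
        _ ≤ (2 * M) * (|τ| / M) := mul_le_mul_of_nonneg_right hvu (by positivity)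
        _ = _ := by field_simp
    rw [norm_nt' τ (v + 1) (by omega)]
    calc _ ≤ 4 * (q : ℝ) * (3 * |τ|) := by
          apply mul_le_mul_of_nonneg_left _ (by positivity)
          linarith
      _ = _ := by ring
  rw [h1]
  refine (norm_add_le _ _).trans ?_
  rw [norm_mul]
  have h4 : ‖s‖ * ‖∑ n ∈ Ioc u v, nt τ n‖ ≤ 1 * (6 * (M / |τ|) + 2 * |τ|) :=
    mul_le_mul hS h2 (norm_nonneg _) zero_le_one
  have h5 : |τ| ≤ q * |τ| := le_mul_of_one_le_left hτ0.le hq1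
  have h6 : 0 ≤ M / |τ| := by positivity
  linarith

theorem fd : S_FD := by
  refine ⟨56, by norm_num, ?_⟩
  intro q hq χ M u v τ hM hu hv hτ
  have hq1 : 1 ≤ q := Nat.one_le_iff_ne_zero.2 (NeZero.ne q)
  have hM0 : (0 : ℝ) < M := by exact_mod_cast hM
  have hτ0 : 0 < |τ| := by linarith
  have hc : ∀ n : ℕ, ‖χ (n : ZMod q)‖ ≤ 1 := fun n => DirichletCharacter.norm_le_one χ _
  have hp : ∀ n : ℕ, χ ((n + q : ℕ) : ZMod q) = χ (n : ZMod q) := by
    intro n; congr 1; simp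
  have key : ∀ w, w ≤ 2 * M → ‖∑ n ∈ Ioc u w, χ (n : ZMod q) * nt τ n‖ ≤
      14 * (M / |τ| + q * |τ|) := fun w hw =>
    fd1 q hq1 (fun n => χ (n : ZMod q)) hc hp M u w τ hM hu hw hτ
  have hB0 : 0 ≤ 14 * (M / |τ| + q * |τ|) := by positivity
  refine ⟨(key v hv).trans ?_, ?_⟩
  · linarith
  have hlM : 0 ≤ Real.log M := Real.log_nonneg (by exact_mod_cast hM)
  rcases Nat.lt_or_ge v u with h | huv
  · rw [Ioc_eq_empty (by omega), sum_empty, norm_zero]
    positivity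
  have h1 : ∑ n ∈ Ioc u v, (χ (n : ZMod q) * (Real.log n : ℂ)) * nt τ n =
      ∑ n ∈ Ioc u v, (χ (n : ZMod q) * nt τ n) * (Real.log n : ℂ) :=
    sum_congr rfl fun n _ => by ring
  rw [h1]
  refine (abel_bd (fun n => χ (n : ZMod q) * nt τ n) (fun n => (Real.log n : ℂ)) u v huv
    (14 * (M / |τ| + q * |τ|)) (fun w hw hwv => key w (hwv.trans hv))).trans ?_
  have h2 : ∀ n ∈ Ioc u v, ‖((Real.log ((n + 1 : ℕ) : ℝ) : ℝ) : ℂ) - (Real.log n : ℂ)‖ =
      Real.log ((n + 1 : ℕ) : ℝ) - Real.log n := by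
    intro n hn
    rw [mem_Ioc] at hn
    rw [← Complex.ofReal_sub, Complex.norm_real, Real.norm_eq_abs, abs_of_nonneg]
    have : Real.log (n : ℝ) ≤ Real.log ((n + 1 : ℕ) : ℝ) := by
      apply Real.log_le_log
      · exact_mod_cast (by omega : 0 < n)
      · push_cast; linarith
    linarith
  have h3 : ∀ w, u ≤ w → ∑ n ∈ Ioc u w, (Real.log ((n + 1 : ℕ) : ℝ) - Real.log n) =
      Real.log ((w + 1 : ℕ) : ℝ) - Real.log ((u + 1 : ℕ) : ℝ) := by
    intro w hw
    induction w, hw using Nat.le_induction with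
    | base => simp
    | succ w hw ih => rw [sum_Ioc_succ_top (by omega), ih]; ring
  rw [sum_congr rfl h2, h3 v huv, Complex.norm_real, Real.norm_eq_abs]
  have h4 : 0 ≤ Real.log ((v + 1 : ℕ) : ℝ) := Real.log_nonneg (by push_cast; linarith [Nat.cast_nonneg (α := ℝ) v])
  have h5 : 0 ≤ Real.log ((u + 1 : ℕ) : ℝ) := Real.log_nonneg (by push_cast; linarith [Nat.cast_nonneg (α := ℝ) u])
  have h6 : Real.log ((v + 1 : ℕ) : ℝ) ≤ 2 * (1 + Real.log M) := by
    have a1 : Real.log ((v + 1 : ℕ) : ℝ) ≤ Real.log (3 * M) := by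
      apply Real.log_le_log (by positivity)
      exact_mod_cast (show v + 1 ≤ 3 * M by omega)
    have a2 : Real.log (3 * M) = Real.log 3 + Real.log M := Real.log_mul (by norm_num) hM0.ne'
    have a3 : Real.log 3 ≤ 2 := by
      have := Real.log_le_sub_one_of_pos (show (0 : ℝ) < 3 by norm_num)
      linarith
    linarith
  rw [abs_of_nonneg h4]
  calc _ ≤ 14 * (M / |τ| + q * |τ|) * (4 * (1 + Real.log M)) := by
        apply mul_le_mul_of_nonneg_left _ hB0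
        linarith
    _ = _ := by ring

end Pool.Agent.Q229.CR
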