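import Mathlib
import Pool.Agent.Q236.CR.Stm

/-! Project CR, job HB: Heath-Brown's identity with a completely multiplicative twist. -/

set_option autoImplicit false

namespace Pool.Agent.Q229.CR

open Finset
open Pool.Agent.Q236.CR
open scoped ArithmeticFunction.Moebius ArithmeticFunction.zeta

/-- a function as an arithmetic function -/
noncomputable def AF (f : ℕ → ℂ) : ArithmeticFunction ℂ := ⟨fun n => if n = 0 then 0 else f n, by simp⟩

theorem AF_apply (f : ℕ → ℂ) (n : ℕ) (hn : 1 ≤ n) : AF f n = f n := by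
  change (if n = 0 then 0 else f n) = f n
  rw [if_neg (by omega)]

/-- the twist of an arithmetic function -/
noncomputable def Tw (g : ℕ → ℂ) (f : ArithmeticFunction ℂ) : ArithmeticFunction ℂ :=
  ⟨fun n => g n * f n, by simp⟩

theorem Tw_apply (g : ℕ → ℂ) (f : ArithmeticFunction ℂ) (n : ℕ) : Tw g f n = g n * f n := rfl

theorem Tw_mul (g : ℕ → ℂ) (hg : ∀ m n, g (m * n) = g m * g n) (a b : ArithmeticFunction ℂ) :
    Tw g (a * b) = Tw g a * Tw g b := by
  ext n
  rw [Tw_apply, ArithmeticFunction.mul_apply, ArithmeticFunction.mul_apply, mul_sum]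
  apply sum_congr rfl
  intro x hx
  rw [Nat.mem_divisorsAntidiagonal] at hx
  rw [Tw_apply, Tw_apply, ← hx.1, hg]
  ring

theorem Tw_one (g : ℕ → ℂ) (hg1 : g 1 = 1) : Tw g 1 = 1 := by
  ext n
  rw [Tw_apply, ArithmeticFunction.one_apply]
  split_ifs with h
  · rw [h, hg1, mul_one]
  · rw [mul_zero]

theorem Tw_pow (g : ℕ → ℂ) (hg : ∀ m n, g (m * n) = g m * g n) (hg1 : g 1 = 1)
    (a : ArithmeticFunction ℂ) (k : ℕ) : Tw g (a ^ k) = Tw g a ^ k := by
  induction k with
  | zero => rw [pow_zero, pow_zero, Tw_one g hg1]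
  | succ k ih => rw [pow_succ, pow_succ, Tw_mul g hg, ih]

/-- sums over factorisations are Dirichlet convolutions -/
theorem TS_eq {r : ℕ} : ∀ (F : Fin r → ℕ → ℂ) (X n : ℕ), 1 ≤ n → n ≤ X →
    TS F X n = (∏ i, AF (F i)) n := by
  induction r with
  | zero =>
    intro F X n hn hX
    unfold TS
    rw [Finset.univ_eq_empty, Finset.prod_empty, ArithmeticFunction.one_apply]
    rw [Fintype.piFinset_of_isEmpty]
    split_ifs with h
    · subst h; simp
    · rw [filter_false_of_mem]
      · simp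
      · intro v _ hv
        simp at hv
        exact h hv.symm
  | succ r ih =>
    intro F X n hn hX
    rw [Fin.prod_univ_succ, ArithmeticFunction.mul_apply]
    have h1 : ∀ x ∈ n.divisorsAntidiagonal, AF (F 0) x.1 * (∏ i : Fin r, AF (F i.succ)) x.2 =
        ∑ v ∈ (Fintype.piFinset (fun _ : Fin r => Finset.Icc 1 X)).filter (fun v => ∏ i, v i = x.2),
          F 0 x.1 * ∏ i, F i.succ (v i) := by
      intro x hx
      have hx1 := (Nat.mem_divisorsAntidiagonal.1 hx)
      have h1 : 1 ≤ x.1 := Nat.one_le_iff_ne_zero.2 (fun h => by rw [h, zero_mul] at hx1; omega)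
      have h2 : 1 ≤ x.2 := Nat.one_le_iff_ne_zero.2 (fun h => by rw [h, mul_zero] at hx1; omega)
      have h3 : x.2 ≤ n := by rw [← hx1.1]; exact Nat.le_mul_of_pos_left _ h1
      rw [← ih (fun i => F i.succ) X x.2 h2 (h3.trans hX), AF_apply _ _ h1]
      unfold TS
      rw [mul_sum]
    rw [sum_congr rfl h1, Finset.sum_sigma']
    unfold TS
    refine Finset.sum_nbij' (fun v => ⟨(v 0, ∏ i : Fin r, v i.succ), fun i => v i.succ⟩)
      (fun p => Fin.cons p.1.1 p.2) ?_ ?_ ?_ ?_ ?_
    · intro v hv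
      rw [mem_filter, Fintype.mem_piFinset] at hv
      rw [mem_sigma, mem_filter, Fintype.mem_piFinset, Nat.mem_divisorsAntidiagonal]
      refine ⟨⟨?_, by omega⟩, fun i => hv.1 i.succ, rfl⟩
      rw [← hv.2, Fin.prod_univ_succ]
    · intro p hp
      rw [mem_sigma, mem_filter, Fintype.mem_piFinset, Nat.mem_divisorsAntidiagonal] at hp
      rw [mem_filter, Fintype.mem_piFinset]
      have h1 : 1 ≤ p.1.1 := Nat.one_le_iff_ne_zero.2 (fun h => by
        rw [h, zero_mul] at hp; omega)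
      have h2 : 1 ≤ p.1.2 := Nat.one_le_iff_ne_zero.2 (fun h => by
        rw [h, mul_zero] at hp; omega)
      have h3 : p.1.1 ≤ n := by rw [← hp.1.1]; exact Nat.le_mul_of_pos_right _ h2
      refine ⟨?_, ?_⟩
      · intro i
        refine Fin.cases ?_ (fun i => ?_) i
        · rw [Fin.cons_zero, mem_Icc]; exact ⟨h1, h3.trans hX⟩
        · rw [Fin.cons_succ]; exact hp.2.1 i
      · rw [Fin.prod_univ_succ]
        simp only [Fin.cons_zero, Fin.cons_succ]
        rw [hp.2.2, hp.1.1]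
    · intro v hv
      funext i
      refine Fin.cases ?_ (fun i => ?_) i
      · rfl
      · rfl
    · intro p hp
      rw [mem_sigma, mem_filter, Fintype.mem_piFinset, Nat.mem_divisorsAntidiagonal] at hp
      obtain ⟨⟨a, b⟩, v⟩ := p
      simp only at hp ⊢
      simp only [Fin.cons_zero, Fin.cons_succ, hp.2.2]
    · intro v hv
      rw [Fin.prod_univ_succ]

/-- a power of a function vanishing up to `z` vanishes below `(z+1)^k` -/
theorem pow_vanish (f : ArithmeticFunction ℂ) (z : ℕ) (hf : ∀ n, n ≤ z → f n = 0) (k : ℕ) :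
    ∀ n, n < (z + 1) ^ k → (f ^ k) n = 0 := by
  induction k with
  | zero =>
    intro n hn
    rw [pow_zero] at hn ⊢
    have : n = 0 := by omega
    rw [this]; simp
  | succ k ih =>
    intro n hn
    rw [pow_succ, ArithmeticFunction.mul_apply]
    apply sum_eq_zero
    intro x hx
    have hx1 := (Nat.mem_divisorsAntidiagonal.1 hx)
    by_cases h : x.2 ≤ z
    · rw [hf _ h, mul_zero]
    · have : x.1 < (z + 1) ^ k := by
        by_contra h2
        push Not at h h2
        have h3 : (z + 1) ^ k * (z + 1) ≤ x.1 * x.2 := Nat.mul_le_mul h2 h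
        rw [hx1.1, ← pow_succ] at h3
        omega
      rw [ih _ this, zero_mul]

theorem mul_vanish (a f : ArithmeticFunction ℂ) (w : ℕ) (hf : ∀ n, n < w → f n = 0) :
    ∀ n, n < w → (a * f) n = 0 := by
  intro n hn
  rw [ArithmeticFunction.mul_apply]
  apply sum_eq_zero
  intro x hx
  have hx1 := (Nat.mem_divisorsAntidiagonal.1 hx)
  have h1 : 1 ≤ x.1 := Nat.one_le_iff_ne_zero.2 (fun h => by rw [h, zero_mul] at hx1; omega)
  have h3 : x.2 ≤ n := by rw [← hx1.1]; exact Nat.le_mul_of_pos_left _ h1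
  rw [hf _ (by omega), mul_zero]

/-- the constant function, the cut Moebius function, the logarithm, the von Mangoldt function -/
noncomputable def U1 : ArithmeticFunction ℂ := AF (fun _ => 1)
noncomputable def Mz (z : ℕ) : ArithmeticFunction ℂ :=
  AF (fun n => if n ≤ z then ((ArithmeticFunction.moebius n : ℤ) : ℂ) else 0)
noncomputable def Lg : ArithmeticFunction ℂ := AF (fun n => (Real.log n : ℂ))
noncomputable def Vm : ArithmeticFunction ℂ := AF (fun n => (ArithmeticFunction.vonMangoldt n : ℂ))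
noncomputable def Mm : ArithmeticFunction ℂ := AF (fun n => ((ArithmeticFunction.moebius n : ℤ) : ℂ))

theorem mul_U1 (f : ArithmeticFunction ℂ) (n : ℕ) : (f * U1) n = ∑ d ∈ n.divisors, f d := by
  rw [ArithmeticFunction.mul_apply, ← Nat.map_div_right_divisors, Finset.sum_map]
  apply sum_congr rfl
  intro d hd
  have h2 := Nat.pos_of_mem_divisors hd
  have h1 : 1 ≤ n / d := Nat.div_pos (Nat.divisor_le hd) h2
  change f d * U1 (n / d) = f d
  unfold U1
  rw [AF_apply _ _ h1, mul_one]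

theorem Vm_mul : Vm * U1 = Lg := by
  ext n
  rw [mul_U1]
  rcases Nat.eq_zero_or_pos n with h | h
  · subst h; simp
  · unfold Lg
    rw [AF_apply _ _ h, ← ArithmeticFunction.vonMangoldt_sum, Complex.ofReal_sum]
    apply sum_congr rfl
    intro d hd
    unfold Vm
    rw [AF_apply _ _ (Nat.pos_of_mem_divisors hd)]

theorem Mm_mul : Mm * U1 = 1 := by
  ext n
  rw [mul_U1]
  have h1 : (1 : ArithmeticFunction ℤ) n = ∑ d ∈ n.divisors, ArithmeticFunction.moebius d := by
    rw [← ArithmeticFunction.moebius_mul_coe_zeta, ArithmeticFunction.coe_mul_zeta_apply]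
  rw [ArithmeticFunction.one_apply] at h1 ⊢
  have h2 : ((if n = 1 then (1 : ℤ) else 0 : ℤ) : ℂ) = if n = 1 then (1 : ℂ) else 0 := by
    split_ifs <;> simp
  rw [← h2, h1]
  push_cast
  apply sum_congr rfl
  intro d hd
  unfold Mm
  rw [AF_apply _ _ (Nat.pos_of_mem_divisors hd)]

theorem f_vanish (z : ℕ) (n : ℕ) (hn : n ≤ z) : (1 - Mz z * U1) n = 0 := by
  change (1 : ArithmeticFunction ℂ) n - (Mz z * U1) n = 0
  rw [← Mm_mul, mul_U1, mul_U1, sub_eq_zero]
  apply sum_congr rfl
  intro d hd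
  unfold Mm Mz
  have h2 := Nat.pos_of_mem_divisors hd
  rw [AF_apply _ _ h2, AF_apply _ _ h2, if_pos ((Nat.divisor_le hd).trans hn)]

/-- the identity in the ring of arithmetic functions -/
theorem core (a b : ArithmeticFunction ℂ) (hab : a * U1 = b) (k z n : ℕ) (hn : n < (z + 1) ^ k) :
    a n = ∑ j ∈ range k, (-1 : ℂ) ^ j * (k.choose (j + 1) : ℂ) *
      (Mz z ^ (j + 1) * (U1 ^ j * b)) n := by
  have h0 : (a * (1 - Mz z * U1) ^ k) n = 0 :=
    mul_vanish a _ _ (pow_vanish _ z (f_vanish z) k) n hn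
  have h1 : a * (1 - Mz z * U1) ^ k = a - ∑ j ∈ range k, ((-1 : ℂ) ^ j * (k.choose (j + 1) : ℂ)) •
      (Mz z ^ (j + 1) * (U1 ^ j * b)) := by
    have e1 : (1 - Mz z * U1) = -(Mz z * U1) + 1 := by ring
    rw [e1, add_pow, sum_range_succ']
    simp only [one_pow, mul_one, pow_zero, Nat.choose_zero_right, Nat.cast_one]
    rw [mul_add, mul_one, add_comm, sub_eq_add_neg]
    congr 1
    rw [mul_sum, ← sum_neg_distrib]
    apply sum_congr rfl
    intro j _
    rw [← hab]
    have e2 : ((-1 : ℂ) ^ j * (k.choose (j + 1) : ℂ)) • (Mz z ^ (j + 1) * (U1 ^ j * (a * U1))) =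
        ((-1 : ArithmeticFunction ℂ) ^ j * (k.choose (j + 1) : ArithmeticFunction ℂ)) *
          (Mz z ^ (j + 1) * (U1 ^ j * (a * U1))) := by
      rcases Nat.even_or_odd j with h | h
      · have q1 : (-1 : ℂ) ^ j = 1 := h.neg_one_pow
        have q2 : (-1 : ArithmeticFunction ℂ) ^ j = 1 := by
          obtain ⟨m, hm⟩ := h
          have q3 : (-1 : ArithmeticFunction ℂ) ^ 2 = 1 := by ring
          rw [hm, ← two_mul, pow_mul, q3, one_pow]
        rw [q1, q2, one_mul, one_mul, Nat.cast_smul_eq_nsmul, nsmul_eq_mul]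
      · have q1 : (-1 : ℂ) ^ j = -1 := h.neg_one_pow
        have q2 : (-1 : ArithmeticFunction ℂ) ^ j = -1 := by
          obtain ⟨m, hm⟩ := h
          have q3 : (-1 : ArithmeticFunction ℂ) ^ 2 = 1 := by ring
          rw [hm, pow_succ, pow_mul, q3, one_pow, one_mul]
        rw [q1, q2, neg_one_mul, neg_smul, Nat.cast_smul_eq_nsmul, nsmul_eq_mul]
        ring
    rw [e2]
    ring
  rw [h1] at h0
  have h2 : (a - ∑ j ∈ range k, ((-1 : ℂ) ^ j * (k.choose (j + 1) : ℂ)) •
      (Mz z ^ (j + 1) * (U1 ^ j * b))) n = a n - (∑ j ∈ range k,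
      ((-1 : ℂ) ^ j * (k.choose (j + 1) : ℂ)) • (Mz z ^ (j + 1) * (U1 ^ j * b))) n := rfl
  rw [h2, sub_eq_zero] at h0
  rw [h0]
  have h3 : ∀ (s : Finset ℕ) (G : ℕ → ArithmeticFunction ℂ), (∑ j ∈ s, G j) n = ∑ j ∈ s, G j n := by
    intro s G
    induction s using Finset.induction_on with
    | empty => simp
    | insert i s hi ih => rw [sum_insert hi, sum_insert hi, ← ih]; rfl
  rw [h3]
  apply sum_congr rfl
  intro j _
  rfl

/-- the twisted products -/
theorem TS_HBL (g : ℕ → ℂ) (hg : ∀ m n, g (m * n) = g m * g n) (hg1 : g 1 = 1) (z j X n : ℕ)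
    (hn : 1 ≤ n) (hX : n ≤ X) :
    TS (HBL g z j) X n = g n * (Mz z ^ (j + 1) * (U1 ^ j * Lg)) n := by
  rw [TS_eq _ _ _ hn hX, Fin.prod_univ_add]
  unfold HBL
  simp only [Fin.addCases_left, Fin.addCases_right]
  rw [prod_const, card_univ, Fintype.card_fin, Fin.prod_univ_castSucc]
  have e1 : AF (fun n => gmu g z n) = Tw g (Mz z) := by
    ext n
    rcases Nat.eq_zero_or_pos n with h | h
    · subst h; simp
    · rw [AF_apply _ _ h, Tw_apply]
      unfold gmu Mz
      rw [AF_apply _ _ h]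
      split_ifs <;> simp
  have e2 : ∀ i : Fin j, AF (fun n => if ((i.castSucc : Fin (j + 1)) : ℕ) = j then
      g n * (Real.log n : ℂ) else g n) = Tw g U1 := by
    intro i
    ext n
    rcases Nat.eq_zero_or_pos n with h | h
    · subst h; simp
    · rw [AF_apply _ _ h, Tw_apply, if_neg (by rw [Fin.val_castSucc]; exact i.2.ne)]
      unfold U1
      rw [AF_apply _ _ h, mul_one]
  have e3 : AF (fun n => if ((Fin.last j : Fin (j + 1)) : ℕ) = j then
      g n * (Real.log n : ℂ) else g n) = Tw g Lg := by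
    ext n
    rcases Nat.eq_zero_or_pos n with h | h
    · subst h; simp
    · rw [AF_apply _ _ h, Tw_apply, if_pos (Fin.val_last j)]
      unfold Lg
      rw [AF_apply _ _ h]
  rw [e3, prod_congr rfl (fun i _ => e2 i), prod_const, card_univ, Fintype.card_fin, e1,
    ← Tw_pow g hg hg1, ← Tw_pow g hg hg1, ← Tw_mul g hg, ← Tw_mul g hg, Tw_apply]

theorem TS_HBM (g : ℕ → ℂ) (hg : ∀ m n, g (m * n) = g m * g n) (hg1 : g 1 = 1) (z j X n : ℕ)
    (hn : 1 ≤ n) (hX : n ≤ X) :
    TS (HBM g z j) X n = g n * (Mz z ^ (j + 1) * (U1 ^ j * 1)) n := by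
  rw [TS_eq _ _ _ hn hX, Fin.prod_univ_add]
  unfold HBM
  simp only [Fin.addCases_left, Fin.addCases_right]
  rw [prod_const, card_univ, Fintype.card_fin]
  have e1 : AF (fun n => gmu g z n) = Tw g (Mz z) := by
    ext n
    rcases Nat.eq_zero_or_pos n with h | h
    · subst h; simp
    · rw [AF_apply _ _ h, Tw_apply]
      unfold gmu Mz
      rw [AF_apply _ _ h]
      split_ifs <;> simp
  have e2 : AF (fun n => g n) = Tw g U1 := by
    ext n
    rcases Nat.eq_zero_or_pos n with h | h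
    · subst h; simp
    · rw [AF_apply _ _ h, Tw_apply]
      unfold U1
      rw [AF_apply _ _ h, mul_one]
  rw [e2, prod_const, card_univ, Fintype.card_fin, e1,
    ← Tw_pow g hg hg1, ← Tw_pow g hg hg1, ← Tw_mul g hg, Tw_apply, mul_one]

/-- Heath-Brown's identity (the hypothesis `1 ≤ k` is needed in the second part) -/
def S_HB' : Prop := ∀ g : ℕ → ℂ, (∀ m n, g (m * n) = g m * g n) → g 1 = 1 → ∀ k z X n : ℕ, 1 ≤ k →
  1 ≤ n → n ≤ X → n ≤ z ^ k →
  (g n * (ArithmeticFunction.vonMangoldt n : ℂ) =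
    ∑ j ∈ Finset.range k, (-1 : ℂ) ^ j * (k.choose (j + 1) : ℂ) * TS (HBL g z j) X n) ∧
  (g n * ((ArithmeticFunction.moebius n : ℤ) : ℂ) =
    ∑ j ∈ Finset.range k, (-1 : ℂ) ^ j * (k.choose (j + 1) : ℂ) * TS (HBM g z j) X n)

theorem hb' : S_HB' := by
  intro g hg hg1 k z X n hk hn hX hnz
  have hlt : n < (z + 1) ^ k := lt_of_le_of_lt hnz (Nat.pow_lt_pow_left (Nat.lt_succ_self z) (by omega))
  refine ⟨?_, ?_⟩
  · have h1 := core Vm Lg Vm_mul k z n hlt
    have h2 : (ArithmeticFunction.vonMangoldt n : ℂ) = Vm n := by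
      unfold Vm; rw [AF_apply _ _ hn]
    rw [h2, h1, mul_sum]
    apply sum_congr rfl
    intro j _
    rw [TS_HBL g hg hg1 z j X n hn hX]
    ring
  · have h1 := core Mm 1 Mm_mul k z n hlt
    have h2 : ((ArithmeticFunction.moebius n : ℤ) : ℂ) = Mm n := by
      unfold Mm; rw [AF_apply _ _ hn]
    rw [h2, h1, mul_sum]
    apply sum_congr rfl
    intro j _
    rw [TS_HBM g hg hg1 z j X n hn hX]
    ring

end Pool.Agent.Q229.CR
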